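import Pool.Agent.Hq78.LC.Core

set_option autoImplicit false
set_option linter.unusedSectionVars false

open Finset Filter Topology

namespace Pool.Agent.Results.MP_816dee_pr.LongCycle

/-- The probability that the random spanning subgraph `G_p` (each edge of `G` is kept
independently with probability `p`) has the property `Q`. -/
noncomputable def prob {V : Type} [Fintype V] (G : SimpleGraph V) (p : ℝ)
    (Q : SimpleGraph V → Prop) : ℝ := by
  classical
  exact ∑ S ∈ G.edgeFinset.powerset.filter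
      (fun S : Finset (Sym2 V) => Q (SimpleGraph.fromEdgeSet (S : Set (Sym2 V)))),
    p ^ S.card * (1 - p) ^ (G.edgeFinset.card - S.card)

/-- `H` contains a cycle of length at least `l`. -/
def HasCycle {V : Type} (l : ℝ) (H : SimpleGraph V) : Prop :=
  ∃ (v : V) (c : H.Walk v v), c.IsCycle ∧ l ≤ c.length

/-- The average degree. -/
noncomputable def avgDegree {V : Type} [Fintype V] (G : SimpleGraph V) : ℝ :=
  2 * (G.edgeSet.ncard : ℝ) / Fintype.card V

section aux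

open Pool.Agent.Hq78.LC

variable {V : Type} [Fintype V]

open Classical in
theorem prob_eq (G : SimpleGraph V) (p : ℝ) (Q : SimpleGraph V → Prop) :
    prob G p Q = Ex G.edgeFinset p (fun S => if Q (gr S) then (1 : ℝ) else 0) := by
  unfold prob Ex
  rw [sum_filter]
  refine sum_congr rfl fun S _ => ?_
  rw [mul_ite, mul_one, mul_zero]

theorem prob_le_one (G : SimpleGraph V) {p : ℝ} (h0 : 0 ≤ p) (h1 : p ≤ 1)
    (Q : SimpleGraph V → Prop) : prob G p Q ≤ 1 := by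
  classical
  rw [prob_eq]
  calc _ ≤ Ex G.edgeFinset p (fun _ => (1 : ℝ)) := by
        refine Ex_mono h0 h1 fun S _ => ?_
        split_ifs <;> norm_num
    _ = 1 := Ex_const _ _ _

theorem hasCycle_iff {l : ℝ} {H : SimpleGraph V} : HasCycle l H ↔ HasCyc ⌈l⌉₊ H := by
  unfold HasCycle HasCyc
  constructor
  · rintro ⟨v, c, hc, hl⟩; exact ⟨v, c, hc, Nat.ceil_le.2 hl⟩
  · rintro ⟨v, c, hc, hl⟩; exact ⟨v, c, hc, Nat.ceil_le.1 hl⟩

/-- The quantitative form. -/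
theorem quant (δ : ℝ) (hδ0 : 0 < δ) (hδ1 : δ < 1) : ∃ C : ℝ, 0 < C ∧ ∃ k₀ : ℕ, ∀ k : ℕ, k₀ ≤ k →
    ∀ (V : Type) [Fintype V] [Nonempty V] (G : SimpleGraph V), (k : ℝ) ≤ avgDegree G →
    ∀ p : ℝ, 0 ≤ p → p ≤ 1 → C / k ≤ p →
      1 - 2 * Real.exp (-(k : ℝ)) ≤ prob G p (HasCycle ((1 - δ) * k)) := by
  classical
  obtain ⟨C, hC, k₀, h⟩ := core hδ0 hδ1
  refine ⟨C, hC, k₀, ?_⟩
  intro k hk V _ _ G hG p h0 h1 hCp
  rw [prob_eq]
  have h2 := h k hk V G.edgeFinset (fun e he => by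
      rw [SimpleGraph.mem_edgeFinset] at he
      exact G.not_isDiag_of_mem_edgeSet he) (by
      unfold avgDegree at hG
      have hn : (0 : ℝ) < Fintype.card V := by exact_mod_cast Fintype.card_pos
      have h4 : G.edgeSet.ncard = G.edgeFinset.card := by
        rw [← SimpleGraph.coe_edgeFinset, Set.ncard_coe_finset]
      rw [le_div_iff₀ hn, h4] at hG
      exact_mod_cast hG) p h0 h1 hCp
  refine h2.trans (le_of_eq (Ex_congr fun S _ => ?_))
  simp only [hasCycle_iff]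

end aux

/-- **Question 1.** If `G` has average degree at least `k` and `p ≥ ω(1)/k`, then a.a.s. `G_p`
contains a cycle of length at least `(1 - o(1)) k`; together with a quantitative form. -/
theorem result :
    (∀ (ω : ℕ → ℝ), Tendsto ω atTop atTop →
      ∀ (V : ℕ → Type) [∀ k, Fintype (V k)] [∀ k, Nonempty (V k)] (G : ∀ k, SimpleGraph (V k)),
      (∀ k : ℕ, (k : ℝ) ≤ avgDegree (G k)) →
      ∀ p : ℕ → ℝ, (∀ k, 0 ≤ p k ∧ p k ≤ 1) → (∀ k : ℕ, ω k / k ≤ p k) →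
      ∃ ε : ℕ → ℝ, Tendsto ε atTop (𝓝 0) ∧
        Tendsto (fun k : ℕ => prob (G k) (p k) (HasCycle ((1 - ε k) * k))) atTop (𝓝 1)) ∧
    (∀ δ : ℝ, 0 < δ → δ < 1 → ∃ C : ℝ, 0 < C ∧ ∃ k₀ : ℕ, ∀ k : ℕ, k₀ ≤ k →
      ∀ (V : Type) [Fintype V] [Nonempty V] (G : SimpleGraph V), (k : ℝ) ≤ avgDegree G →
      ∀ p : ℝ, 0 ≤ p → p ≤ 1 → C / k ≤ p →
        1 - 2 * Real.exp (-(k : ℝ)) ≤ prob G p (HasCycle ((1 - δ) * k))) := by
  refine ⟨?_, quant⟩
  intro ω hω V _ _ G hG p hp hpω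
  -- for every `δ` the bound holds eventually
  have hev : ∀ δ : ℝ, 0 < δ → δ < 1 → ∀ᶠ k : ℕ in atTop,
      1 - 2 * Real.exp (-(k : ℝ)) ≤ prob (G k) (p k) (HasCycle ((1 - δ) * k)) := by
    intro δ h0 h1
    obtain ⟨C, hC, k₀, h⟩ := quant δ h0 h1
    filter_upwards [eventually_ge_atTop k₀, hω.eventually_ge_atTop C] with k hk1 hk2
    refine h k hk1 (V k) (G k) (hG k) (p k) (hp k).1 (hp k).2 (le_trans ?_ (hpω k))
    exact div_le_div_of_nonneg_right hk2 (Nat.cast_nonneg _)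
  set A : ℕ → Set ℝ := fun k => {δ | 0 < δ ∧ δ < 1 ∧
    1 - 2 * Real.exp (-(k : ℝ)) ≤ prob (G k) (p k) (HasCycle ((1 - δ) * k))} ∪ {1} with hA
  have hA1 : ∀ k, (1 : ℝ) ∈ A k := fun k => Or.inr rfl
  have hA0 : ∀ k, ∀ δ ∈ A k, 0 < δ := by
    rintro k δ (h | h)
    · exact h.1
    · rw [Set.mem_singleton_iff] at h; rw [h]; norm_num
  have hbdd : ∀ k, BddBelow (A k) := fun k => ⟨0, fun δ hδ => (hA0 k δ hδ).le⟩
  have hchoose : ∀ k : ℕ, ∃ δ ∈ A k, δ < sInf (A k) + 1 / ((k : ℝ) + 1) := by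
    intro k
    refine exists_lt_of_csInf_lt ⟨1, hA1 k⟩ ?_
    have : 0 < 1 / ((k : ℝ) + 1) := by positivity
    linarith
  choose ε hε1 hε2 using hchoose
  have hεsmall : ∀ δ : ℝ, 0 < δ → ∀ᶠ k in atTop, ε k < δ := by
    intro δ hδ
    have h1 : 0 < min (δ / 2) (1 / 2) := by positivity
    have h2 : min (δ / 2) (1 / 2) < 1 := lt_of_le_of_lt (min_le_right _ _) (by norm_num)
    have h3 := (tendsto_one_div_add_atTop_nhds_zero_nat (𝕜 := ℝ)).eventually
      (gt_mem_nhds (show (0 : ℝ) < δ / 2 by positivity))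
    filter_upwards [hev _ h1 h2, h3] with k hk1 hk2
    have h4 : sInf (A k) ≤ min (δ / 2) (1 / 2) := csInf_le (hbdd k) (Or.inl ⟨h1, h2, hk1⟩)
    have h5 := hε2 k
    have h6 : min (δ / 2) (1 / 2) ≤ δ / 2 := min_le_left _ _
    linarith
  refine ⟨ε, ?_, ?_⟩
  · rw [Metric.tendsto_atTop]
    intro δ hδ
    obtain ⟨N, hN⟩ := eventually_atTop.1 (hεsmall δ hδ)
    refine ⟨N, fun k hk => ?_⟩
    rw [Real.dist_eq, sub_zero, abs_of_pos (hA0 k _ (hε1 k))]
    exact hN k hk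
  · have h1 : ∀ᶠ k : ℕ in atTop,
        1 - 2 * Real.exp (-(k : ℝ)) ≤ prob (G k) (p k) (HasCycle ((1 - ε k) * k)) := by
      filter_upwards [hεsmall 1 one_pos] with k hk
      rcases hε1 k with h2 | h2
      · exact h2.2.2
      · rw [Set.mem_singleton_iff] at h2
        rw [h2] at hk
        exact absurd hk (lt_irrefl _)
    have h2 : Tendsto (fun k : ℕ => 1 - 2 * Real.exp (-(k : ℝ))) atTop (𝓝 1) := by
      have h3 : Tendsto (fun k : ℕ => Real.exp (-(k : ℝ))) atTop (𝓝 0) :=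
        Real.tendsto_exp_neg_atTop_nhds_zero.comp tendsto_natCast_atTop_atTop
      have h4 := (h3.const_mul 2).const_sub 1
      simpa using h4
    exact tendsto_of_tendsto_of_tendsto_of_le_of_le' h2 tendsto_const_nhds h1
      (Eventually.of_forall fun k => prob_le_one _ (hp k).1 (hp k).2 _)

end Pool.Agent.Results.MP_816dee_pr.LongCycle
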